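import Pool.Agent.ASE.Stmts2b
import Pool.Agent.Helper97_ASE.CZB

/-!
# Squad ASE, row VAL: the values of the central characters at `et` and `fm`
-/

open scoped BigOperators

noncomputable section

namespace Pool.Agent.PP.SE.H77

open Pool.Agent.Helper51_AWC Pool.Agent.Helper79_WRA Pool.Agent.PP Pool.Agent.PP.KF
open Pool.Agent.PP.K9 Pool.Agent.PP.K9.H97 Pool.Agent.PP.H75 Pool.Agent.PP.T3 Pool.Agent.PP.SO
open Pool.Agent.PP.SD

attribute [local instance] Ideal.Quotient.field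

section tools

variable {V₀ G : Type} [CommGroup V₀] [Finite V₀] [Group G] [Finite G]
  {M : Ideal (integralClosure ℤ ℂ)} [M.IsMaximal] (B : Bk (FF M) V₀ G) (W : Subgroup V₀)

/-- the central character at `fc W c`, `c ∈ W` -/
theorem cv_fc_mem {χ : G → ℂ} (hχ : χ ∈ Ch B W) {c : V₀} (hc : c ∈ W) :
    cv (fc B W c) χ = nu B χ c := by
  classical
  have hfin : Fintype (B.C W) := Fintype.ofFinite _
  obtain ⟨hs, hI⟩ := hχ
  have hone : χ 1 ≠ 0 := irr_one_ne (χ := fun t : B.C W => χ t) hI.1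
  have hcard : (Fintype.card (B.C W) : ℂ) ≠ 0 := by exact_mod_cast Fintype.card_ne_zero
  unfold SO.cv nu
  rw [SD.H79.sum_fc B W c hs hI.1]
  have h1 : W ⊔ Subgroup.zpowers c = W := sup_eq_left.2 (Subgroup.zpowers_le.2 hc)
  rw [h1]
  have h2 : ∀ s : B.C W, bh B W s = eh M (fun t : B.C W => B.b W t) s :=
    fun s => SO.H33.bh_W B W s
  simp_rw [h2]
  have h3 := SO.H33.sum_cent_mul (eh M (fun t : B.C W => B.b W t)) hI.1
    (SO.H33.jW_cen B W hc) 1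
  simp only [one_mul] at h3
  rw [H25.eh_chv M _ hI.1, if_pos hI] at h3
  have h4 : ∑ s : B.C W, eh M (fun t : B.C W => B.b W t) s * χ (B.i c * s) = χ (B.i c) := by
    refine h3.trans ?_
    show χ (B.i c) / χ 1 * χ 1 = χ (B.i c)
    exact div_mul_cancel₀ _ hone
  rw [h4, Nat.card_eq_fintype_card, ← mul_assoc, inv_mul_cancel₀ hcard, one_mul]

/-- orthogonality -/
theorem orth {χ ψ : G → ℂ} (hχs : ∀ g, g ∉ B.C W → χ g = 0)
    (hχ : (fun t : B.C W => χ t) ∈ Irr (B.C W)) (hψs : ∀ g, g ∉ B.C W → ψ g = 0)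
    (hψ : (fun t : B.C W => ψ t) ∈ Irr (B.C W)) :
    (χ = ψ → ∑ᶠ g : G, χ g⁻¹ * ψ g = (Nat.card (B.C W) : ℂ)) ∧
      (χ ≠ ψ → ∑ᶠ g : G, χ g⁻¹ * ψ g = 0) := by
  classical
  have hfin : Fintype (B.C W) := Fintype.ofFinite _
  rw [SO.H33.sum_supp B W hψs (fun g => χ g⁻¹)]
  refine ⟨fun h => ?_, fun h => ?_⟩
  · subst h
    have h1 := irr_orth_self hχ
    rw [Nat.card_eq_fintype_card, ← h1]
    exact Finset.sum_congr rfl fun t _ => mul_comm _ _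
  · have hne : (fun t : B.C W => ψ t) ≠ (fun t : B.C W => χ t) := by
      intro h1
      apply h
      funext g
      by_cases hg : g ∈ B.C W
      · exact (congrFun h1 ⟨g, hg⟩).symm
      · rw [hχs g hg, hψs g hg]
    have h1 := irr_orth_ne hψ hχ hne
    rw [← h1]
    exact Finset.sum_congr rfl fun t _ => mul_comm _ _

/-- combinations of the characters of the block -/
theorem comb (S : Set (G → ℂ)) (hS : S ⊆ Ch B W) (k : (G → ℂ) → ℂ) (a : G → ℂ)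
    (ha : ∀ g, a g = ∑ᶠ χ ∈ S, k χ * χ g⁻¹)
    (hcl : ∀ χ ∈ Ch B W, ∀ z ∈ B.C W, ∀ g, χ (z * g * z⁻¹) = χ g) :
    (∀ g, g ∉ B.C W → a g = 0) ∧ (∀ z ∈ B.C W, ∀ g, a (z * g * z⁻¹) = a g) ∧
    ∀ ψ : G → ℂ, (∀ g, g ∉ B.C W → ψ g = 0) → (fun t : B.C W => ψ t) ∈ Irr (B.C W) →
      (ψ ∉ S → cv a ψ = 0) ∧ (ψ ∈ S → cv a ψ = k ψ * Nat.card (B.C W) / ψ 1) := by
  classical
  have hfin : S.Finite := (SE.H97.ch_fin B W).subset hS
  have := Fintype.ofFinite G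
  have ha' : ∀ g, a g = ∑ χ ∈ hfin.toFinset, k χ * χ g⁻¹ := fun g => by
    rw [ha, finsum_mem_eq_finite_toFinset_sum _ hfin]
  refine ⟨fun g hg => ?_, fun z hz g => ?_, fun ψ hs hI => ?_⟩
  · rw [ha']
    refine Finset.sum_eq_zero fun χ hχ => ?_
    rw [(hS (hfin.mem_toFinset.1 hχ)).1 g⁻¹ (fun h => hg (inv_mem_iff.1 h)), mul_zero]
  · rw [ha', ha']
    refine Finset.sum_congr rfl fun χ hχ => ?_
    have e : (z * g * z⁻¹)⁻¹ = z * g⁻¹ * z⁻¹ := by group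
    rw [e, hcl χ (hS (hfin.mem_toFinset.1 hχ)) z hz]
  · have h1 : ∑ᶠ g, a g * ψ g = ∑ χ ∈ hfin.toFinset, k χ *
        (if χ = ψ then (Nat.card (B.C W) : ℂ) else 0) := by
      rw [finsum_eq_sum_of_fintype]
      simp_rw [ha', Finset.sum_mul]
      rw [Finset.sum_comm]
      refine Finset.sum_congr rfl fun χ hχ => ?_
      have h2 := hS (hfin.mem_toFinset.1 hχ)
      have h3 := orth B W h2.1 h2.2.1 hs hI
      rw [finsum_eq_sum_of_fintype] at h3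
      have h4 : ∑ x, k χ * χ x⁻¹ * ψ x = k χ * ∑ x, χ x⁻¹ * ψ x := by
        rw [Finset.mul_sum]
        exact Finset.sum_congr rfl fun t _ => mul_assoc _ _ _
      rw [h4]
      by_cases h : χ = ψ
      · rw [h3.1 h, if_pos h]
      · rw [h3.2 h, if_neg h]
    have h2 : ∀ χ : G → ℂ, k χ * (if χ = ψ then (Nat.card (B.C W) : ℂ) else 0) =
        if χ = ψ then k ψ * Nat.card (B.C W) else 0 := by
      intro χ
      split_ifs with h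
      · rw [h]
      · rw [mul_zero]
    unfold SO.cv
    rw [h1, Finset.sum_congr rfl fun χ _ => h2 χ, Finset.sum_ite_eq']
    refine ⟨fun h => ?_, fun h => ?_⟩
    · rw [if_neg (fun h' => h (hfin.mem_toFinset.1 h')), zero_div]
    · rw [if_pos (hfin.mem_toFinset.2 h)]

end tools

theorem val (gea : GeaStmt) (gec : GecStmt) (vxm : VxmStmt) (czb : CzbStmt) : ValStmt := by
  intro ℓ hℓ M _ hM hl2 V₀ G _ _ _ _ E₀ hE B hB W hW N e O hC D hD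
  classical
  have hp : ℓ.Prime := Fact.out
  obtain ⟨⟨-, hnd, -⟩, hpr, -, hprw, -⟩ := gea ℓ V₀ E₀ hE W hW
  obtain ⟨g1, -, -, -, -, -, -, g8, g9, g10, -⟩ := gec ℓ V₀ E₀ hE W hW
  obtain ⟨-, -, z3, -, z5, -, z7, -⟩ := czb ℓ M hM hl2 V₀ G E₀ hE B hB.toSb W
  obtain ⟨z1, -⟩ := czb ℓ M hM hl2 V₀ G E₀ hE B hB.toSb W
  have hn0 : nS E₀ W ≠ 0 := fun h => hnd (h ▸ dvd_zero ℓ)
  have hnC : (nS E₀ W : ℂ) ≠ 0 := by exact_mod_cast hn0
  have hcard : (Nat.card (B.C W) : ℂ) ≠ 0 := by exact_mod_cast Nat.card_pos.ne'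
  -- a character not in `N`
  have hsex : ∃ s ∈ lk W, s ≠ (fun _ => (1 : ℂ)) := by
    by_contra h
    push Not at h
    have h1 : lk W ⊆ {fun _ => (1 : ℂ)} := fun s hs => h s hs
    have h2 := Set.ncard_le_ncard h1 (Set.finite_singleton _)
    rw [g1, Set.ncard_singleton] at h2
    exact absurd h2 (not_le.2 hp.one_lt)
  have hone : (fun _ => (1 : ℂ)) ∈ lk (kW E₀ W) :=
    ⟨⟨rfl, fun _ _ => (one_mul (1 : ℂ)).symm⟩, fun _ _ => rfl⟩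
  obtain ⟨s₀, hs₀, hs₀1⟩ := hsex
  obtain ⟨χ₀, ⟨hχ₀, hχ₀N, -⟩, -⟩ := (hC.lv _ hone).bX s₀ hs₀ hs₀1
  have hU : ∃ q ∈ SOR.Rl ℓ, D.U W = 1 + ℓ * q := by
    obtain ⟨q, hq, hq'⟩ := hC.ux
    refine ⟨q, hq, ?_⟩
    have h1 := hD.dU χ₀ hχ₀.1 hχ₀N
    rw [hq' χ₀ hχ₀.1 hχ₀N] at h1
    exact_mod_cast h1.symm
  -- the element `et`
  have hcl : ∀ χ ∈ Ch B W, ∀ z ∈ B.C W, ∀ g, χ (z * g * z⁻¹) = χ g :=
    fun χ hχ => (z7 χ hχ).2.2.2.2
  obtain ⟨c1, c2, c3⟩ := comb B W {χ | χ ∈ Ch B W ∧ χ ∈ N} (fun χ h => h.1)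
    (fun χ => (nS E₀ W : ℂ) * ((e χ : ℂ) * Nat.card (B.C W) * B.D ⊤ /
      (nS E₀ W * Nat.card (B.C ⊤) * χ 1) - D.U W) * (χ 1 / Nat.card (B.C W)))
    (D.et W) hD.de hcl
  have hCz : Cz B W (D.et W) :=
    ⟨c1, c2, fun ψ h1 h2 h3 => (c3 ψ h1 h2).1 fun h => h3 h.1⟩
  have hetN : ∀ χ ∈ Ch B W, χ ∈ N → cv (D.et W) χ = (nS E₀ W : ℂ) *
      ((e χ : ℂ) * Nat.card (B.C W) * B.D ⊤ / (nS E₀ W * Nat.card (B.C ⊤) * χ 1) - D.U W) := by
    intro χ hχ hN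
    have h1 : χ 1 ≠ 0 := (z7 χ hχ).1
    rw [(c3 χ hχ.1 hχ.2.1).2 ⟨hχ, hN⟩]
    field_simp
  have hetX : ∀ χ ∈ Ch B W, χ ∉ N → cv (D.et W) χ = 0 := fun χ hχ hN =>
    (c3 χ hχ.1 hχ.2.1).1 fun h => hN h.2
  -- the elements `fm`
  have hfmW : ∀ χ ∈ Ch B W, ∀ c ∈ W, cv (fm ℓ E₀ B D W c) χ = (nS E₀ W : ℂ) * nu B χ c := by
    intro χ hχ c hc
    have h1 : fm ℓ E₀ B D W c = fun g => (nS E₀ W : ℂ) * fc B W c g + 0 * fc B W c g := by
      funext g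
      unfold fm
      rw [if_pos hc, if_pos hc]
      ring
    rw [h1, (z5 _ _ (z1 c) (z1 c) (nS E₀ W : ℂ) 0).2 χ, cv_fc_mem B W hχ hc]
    ring
  have hfmX : ∀ χ ∈ Ch B W, ∀ c, c ∉ W → cv (fm ℓ E₀ B D W c) χ =
      Nat.card (B.C W) * B.D ⊤ / (Nat.card (B.C ⊤) * χ 1) *
        (nu B χ (pr ℓ E₀ W c) * vx B χ (c * (pr ℓ E₀ W c)⁻¹)) -
        nu B χ (pr ℓ E₀ W c) * cv (D.et W) χ := by
    intro χ hχ c hc
    have hpW := (hpr c).1
    have h1 : fm ℓ E₀ B D W c = fun g => 1 * fc B W c g +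
        (-1) * tk B (pr ℓ E₀ W c) (D.et W) g := by
      funext g
      unfold fm
      rw [if_neg hc, if_neg hc]
      ring
    have h2 := z3 _ hCz _ hpW
    rw [h1, (z5 _ _ (z1 c) h2.1 1 (-1)).2 χ, h2.2 χ hχ]
    obtain ⟨-, ⟨v1, -⟩, v3⟩ := vxm ℓ M hM hl2 V₀ G E₀ hE B hB W hW χ hχ
    rw [(v3 c hc).1]
    have h3 : vx B χ c = nu B χ (pr ℓ E₀ W c) * vx B χ (c * (pr ℓ E₀ W c)⁻¹) := by
      rw [← v1 _ hpW]
      congr 1
      rw [mul_comm, inv_mul_cancel_right]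
    rw [h3]
    ring
  have hy : ∀ c, c ∉ W → c * (pr ℓ E₀ W c)⁻¹ ∈ kW E₀ W ∧ c * (pr ℓ E₀ W c)⁻¹ ≠ 1 := by
    intro c hc
    refine ⟨(hpr c).2, fun h => hc ?_⟩
    rw [mul_inv_eq_one.1 h]
    exact (hpr c).1
  refine ⟨⟨χ₀, hχ₀.1, hχ₀N⟩, hU, hCz, ?_, ?_⟩
  · intro χ hχ hN
    obtain ⟨q, hq, hq'⟩ := hC.un χ hχ hN
    have h1 : χ 1 ≠ 0 := (z7 χ hχ).1
    refine ⟨⟨1 + ℓ * q, ⟨q, hq, rfl⟩, hq', ?_⟩, fun c => ?_⟩
    · rw [hetN χ hχ hN, hq']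
      push_cast
      ring
    · by_cases hc : c ∈ W
      · rw [hfmW χ hχ c hc, hprw c hc]
        have h2 : ux D.U W c = 1 := if_pos hc
        rw [h2]
        push_cast
        ring
      · have h2 : ux D.U W c = D.U W := if_neg hc
        obtain ⟨-, ⟨-, -, -, ⟨ν, hν, hνχ⟩, -⟩, -⟩ := vxm ℓ M hM hl2 V₀ G E₀ hE B hB W hW χ hχ
        have h3 := (hC.lv ν hν).vN χ hνχ hN _ (hy c hc).1 (hy c hc).2
        rw [hfmX χ hχ c hc, h2, h3, hetN χ hχ hN]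
        have h4 : (e χ : ℂ) * Nat.card (B.C W) * B.D ⊤ / (nS E₀ W * Nat.card (B.C ⊤) * χ 1) =
            (nS E₀ W : ℂ)⁻¹ * (Nat.card (B.C W) * B.D ⊤ / (Nat.card (B.C ⊤) * χ 1) * e χ) := by
          rw [mul_assoc (nS E₀ W : ℂ), div_eq_mul_inv, div_eq_mul_inv, mul_inv]
          ring
        rw [h4]
        field_simp
        ring
  · intro χ hχ hN
    refine ⟨hetX χ hχ hN, fun c => ?_⟩
    obtain ⟨-, ⟨-, -, -, ⟨ν, hν, hνχ⟩, -⟩, -⟩ := vxm ℓ M hM hl2 V₀ G E₀ hE B hB W hW χ hχ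
    obtain ⟨⟨s, hs, hs1, hO⟩, h5⟩ := (hC.lv ν hν).vX χ hνχ hN
    by_cases hc : c ∈ W
    · rw [hfmW χ hχ c hc, hprw c hc]
      have h2 : ux D.U W c = 1 := if_pos hc
      have h6 : ∑ᶠ s' ∈ O χ, s' c = (nS E₀ W : ℂ) := by
        have hncard := (g10 s hs hs1).1
        have hfin : (orb E₀ W s).Finite := Set.finite_of_ncard_ne_zero (by rw [hncard]; exact hn0)
        rw [hO, finsum_mem_eq_finite_toFinset_sum _ hfin]
        rw [Finset.sum_congr rfl (g := fun _ => (1 : ℂ)) (fun s' hs' => by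
          obtain ⟨τ, hτ, rfl⟩ := hfin.mem_toFinset.1 hs'
          show s (τ c) = 1
          rw [hτ.2 c hc]
          exact hs.2 c hc), Finset.sum_const, nsmul_eq_mul, mul_one,
          ← Set.ncard_eq_toFinset_card _ hfin, hncard]
      rw [h2, h6]
      push_cast
      ring
    · have h2 : ux D.U W c = D.U W := if_neg hc
      have h6 := h5 _ (hy c hc).1 (hy c hc).2
      have h7 : ∑ᶠ s' ∈ O χ, s' (c * (pr ℓ E₀ W c)⁻¹) = ∑ᶠ s' ∈ O χ, s' c := by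
        refine finsum_mem_congr rfl fun s' hs' => ?_
        rw [hO] at hs'
        obtain ⟨τ, hτ, rfl⟩ := hs'
        exact (g8 _ (g9 s hs τ hτ).1 c).1
      rw [hfmX χ hχ c hc, h2, h6, h7, hetX χ hχ hN, ← hD.dU χ hχ hN]
      ring

end Pool.Agent.PP.SE.H77
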